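import Pool.Agent.Run7.h866.ZP.Vhs
import Pool.Agent.Run7.h866.ZP.Rad

/-!
# MP_eeb1a4_ag: Zilber-Pink for the variations of mixed Hodge structure of all but finitely many members,
with radicals, roots of unity and iterated preimages as parameters, of arbitrary one-parameter
families of tuples of elliptic curves and invertible functions

**The variations.** Let `K ⊂ ℂ` be a countable field, let `P` be a finite system of polynomials in
`s_1, …, s_N` with coefficients in `K[t]`, and let `A_i`, `B_i` (`i ≤ n`) and `U_j` (`j ≤ k`) be
polynomials of this kind. For `t ∈ ℂ` let `S_t ⊂ ℂ^N` be the set of the points `s` with `P(s) = 0`,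
`4 A_i(s)³ + 27 B_i(s)² ≠ 0` for all `i` and `U_j(s) ≠ 0` for all `j` (`OnS`; the coefficients are
evaluated at `t`). Over `S_t` there are the elliptic curves

  `E_i : y² = x³ + A_i x + B_i`

and the invertible functions `U_j`, which give extensions of `ℤ` by `ℤ(1)` (Kummer variations); the
sum `V_t` of the variations `R¹π_{i*} ℤ` and of these extensions is an admissible graded-polarizable
variation of mixed Hodge structure (on the smooth part of `S_t`, if `S_t` is not smooth). By the
elliptic modular function `jj = j = E₄³ / Δ` and the exponential function the quotient `Γ \ D` of the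
period domain (`D` is the product of `n` upper half planes and `ℂ^k`, `Γ = SL_2(ℤ)^n × ℤ^k`) is
identified with `Y(1)^n × G_m^k = ℂ^n × (ℂ^×)^k`, and the period map `Φ` is given by the
`j`-invariants `6912 A_i³ / (4 A_i³ + 27 B_i²)` and the functions `U_j` (`period`). The Hodge
subvarieties `Γ' \ D'` of `Γ \ D` are the products `Z × C` of a special subvariety `Z` of `Y(1)^n`
(`SpecialVariety`) and a torsion coset `C`. Here `Z.locus` is the set of the points `x` with `x_i` a
constant for the constant coordinates, and `x_i = j (g_i z_c)` for the coordinates of class `c`,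
where `z_1, …, z_r` are free in the upper half plane and `g_i` is a fixed integral matrix of positive
determinant. More generally the constants can be special or integral over the ring `ℤ[Γ]` generated
by a given finite set `Γ` of numbers algebraic over `K`, and `C` can be a coset of an algebraic
subgroup by a point whose coordinates are units over `ℤ[Γ]`.

**Tropicalization.** Let `E` be a finite system of polynomials in `u_1, …, u_{n+k}`, `s_1, …, s_N` with
coefficients in `K[t]`, which vanish at all points `(Φ(s), s)`, `s ∈ S_t`. For instance `E` consists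
of `P`, of the polynomials `(4 A_i³ + 27 B_i²) u_i - 6912 A_i³` and of `u_{n+j} - U_j`, but one can add
other polynomials with this property. For `α ∈ ℂ` the set `Trop α E` consists of the points `w` of
`(ℚ ∪ {∞})^(n+k+N)` such that for every polynomial of the system the minimum of the numbers
`ord_α (coefficient) + β · w` (over the exponents `β` of its monomials) is attained at two different
exponents or is infinite.

**Types of special subvarieties.** The product `Z × C` has a type `(cls, d, L)`: the partition `cls` of
the coordinates of `Y(1)^n` which are not constant on `Z` into `r = dim Z` classes, the determinants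
`d_i > 0` of the matrices which define `Z`, and the linear subspace `L` of `ℚ^k`, of dimension `dim C`,
which is orthogonal to the characters constant on `C`. A point `w` is compatible with the type
(`Compatible`) if `w_i ≥ 0` for the constant coordinates, for coordinates `i`, `j` in the same class
either `w_i ≥ 0` and `w_j ≥ 0`, or `w_i < 0`, `w_j < 0` and `d_i d_j w_i w_j` is the square of a rational
number, and the torus coordinates of `w` are a vector in `L`.

**Parameters.** A complex number `t` is *radical* if some power `t^M`, `M > 0`, is a rational number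
(`IsRadical`). Let `φ_1, …, φ_l` and `g` be polynomials with integral coefficients such that all the
composites `g ∘ φ_{i_1} ∘ … ∘ φ_{i_ν}` are irreducible, and `deg g · deg φ_i ≥ 2` for all `i`
(`IrreducibleComposites`). The backward orbit of the roots of `g` is the set of the complex numbers `t`
with `g (φ_{i_1} (… (φ_{i_ν} (t)))) = 0` for some word `i_1 … i_ν` (`InBackwardOrbit`). A rational number
`α` is called wandering if for every `y` there are only finitely many words with
`φ_{i_1} (… (φ_{i_ν} (α))) = y` (`Wandering`). All these parameters have unbounded degrees.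

**Theorem.** Let `m` be an integer, the dimension of `Φ(S_t)`, and `D` a finite set of rational numbers,
such that for every type of dimension `r + dim L < n + k - m` there are at least `σ` elements `α` of `D`
such that `Trop α E` contains no compatible point (`GenericRat`). Then every irreducible constructible
subset `W` of `Φ(S_t) ∩ Γ' \ D'` satisfies `dim W + (n + k - m) ≤ dim Γ' \ D'`
(`NoAtypicalHodge`), and the same bound holds for the transcendence degrees over `K` of the points of
`Φ(S_t) ∩ Γ' \ D'`,
1. for all but finitely many radical numbers `t`, if `σ = 3` and the elements of `D` are nonzero with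
   distinct absolute values,
2. for all but finitely many roots of unity `t`, if `σ = 1` and `|α| ≠ 0, 1` for all `α ∈ D`,
3. for all but finitely many `t` in the backward orbit, if `σ = 1` and all `α ∈ D` are wandering.

This says that `codim Φ(Z) ≥ codim Γ' \ D'`, the codimension of `Φ(Z)` being taken in `Φ(S_t)`, for all
special subvarieties `Z` of `S_t` for `V_t` (`Z` a component of `Φ⁻¹(Γ' \ D')`), if `dim Φ(S_t) = m`:
the atypical Hodge locus of `V_t` is empty. For `Z = S_t` one gets that `Φ(S_t)` is contained in no
proper Hodge subvariety if `n + k > m`.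

The starting file `TropicalEllipticFamilies` treats families over the points of an elliptic curve over
a number field. The arithmetic of the parameters is that of starting files (`Pool.Agent.Y152.RP` and
`Pool.Agent.V1138.BO`), where families of the special form `c_i(t) s_i = A_i(y) / B_i(y)` in
`Y(1)^n × G_m^k` are treated; see also `MP_d83ecd_ag.RadicalTropical` and
`MP_22337f_ag.BackwardOrbitsTropical` (this run).
-/

set_option autoImplicit false

namespace Pool.Agent.Results.MP_eeb1a4_ag.RadicalAndBackwardMembers

open MvPolynomial Pool.Agent.R424.TG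
open Pool.Agent.Y152.RP.FamM (evalAt)
open Pool.Agent.V1138.BO (cmp act)

/-- Some power of `t` with positive exponent is a rational number. -/
def IsRadical (t : ℂ) : Prop := ∃ M : ℕ, 0 < M ∧ ∃ a : ℚ, t ^ M = (a : ℂ)

/-- `t` is a root of unity. -/
def IsRootOfUnity (t : ℂ) : Prop := ∃ M : ℕ, 0 < M ∧ t ^ M = 1

/-- `t` is in the backward orbit of the roots of `g` under the semigroup generated by the
polynomials `φ i`: `g (φ_{i_1} (… (φ_{i_ν} (t)))) = 0` for some word `i_1 … i_ν`. -/
def InBackwardOrbit {l : ℕ} (φ : Fin l → Polynomial ℤ) (g : Polynomial ℤ) (t : ℂ) : Prop :=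
  ∃ w : List (Fin l), Polynomial.aeval (act φ w t) g = 0

/-- All composites `g ∘ φ_{i_1} ∘ … ∘ φ_{i_ν}` are irreducible, and those with `ν = 1` have degree at
least two. -/
def IrreducibleComposites {l : ℕ} (φ : Fin l → Polynomial ℤ) (g : Polynomial ℤ) : Prop :=
  (∀ w : List (Fin l), Irreducible (cmp φ g w)) ∧ ∀ i, 2 ≤ g.natDegree * (φ i).natDegree

/-- Every number is the image of `α` for only finitely many words. -/
def Wandering {l : ℕ} (φ : Fin l → Polynomial ℤ) (α : ℚ) : Prop :=
  ∀ y : ℚ, {w : List (Fin l) | act φ w α = y}.Finite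

/-- For every type `(cls, d, L)` of special subvarieties of dimension less than `n + k - m` there are
at least `σ` elements `α` of `D` such that the tropicalization at `α` has no compatible point. -/
def GenericRat {K : Subfield ℂ} {n k N : ℕ} {κ : Type} (m σ : ℕ)
    (P : κ → MvPolynomial ((Fin n ⊕ Fin k) ⊕ Fin N) (Polynomial K)) (D : Finset ℚ) : Prop :=
  ∀ (r : ℕ) (cls : Fin n → Option (Fin r)) (d : Fin n → ℕ) (L : Submodule ℚ (Fin k → ℚ)),
    (∀ i, 0 < d i) → r + Module.finrank ℚ L + m < n + k →
      ∃ I ⊆ D, σ ≤ I.card ∧ ∀ α ∈ I, ∀ w ∈ Trop (α : ℂ) P, ¬ Compatible cls d L w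

/-- Zilber-Pink for the variations of mixed Hodge structure of the members, with radicals, roots of
unity and iterated preimages as parameters, of arbitrary one-parameter families of `n`-tuples of
elliptic curves and `k`-tuples of invertible functions. -/
theorem result (K : Subfield ℂ) [Countable K] (κ₀ κ : Type) [Finite κ] (n k N m : ℕ)
    (P : κ₀ → MvPolynomial (Fin N) (Polynomial K))
    (A B : Fin n → MvPolynomial (Fin N) (Polynomial K))
    (U : Fin k → MvPolynomial (Fin N) (Polynomial K))
    (E : κ → MvPolynomial ((Fin n ⊕ Fin k) ⊕ Fin N) (Polynomial K))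
    (hE : ∀ (t : ℂ) (s : Fin N → ℂ), OnS (evalAt K t) P A B U s → ∀ q,
      eval₂ (evalAt K t) (Sum.elim (period (evalAt K t) A B U s) s) (E q) = 0)
    (D : Finset ℚ) (Γ : Finset ℂ) (hΓ : ∀ γ ∈ Γ, IsAlgebraic K γ) :
    ((∀ α ∈ D, α ≠ 0) → (∀ α ∈ D, ∀ β ∈ D, α ≠ β → |α| ≠ |β|) → GenericRat m 3 E D →
      {t : ℂ | IsRadical t ∧
        ¬ NoAtypicalHodge (algebraMap (Algebra.adjoin ℤ (Γ : Set ℂ)) ℂ) K m
          (image (evalAt K t) P A B U)}.Finite) ∧
    ((∀ α ∈ D, α ≠ 0 ∧ |α| ≠ 1) → GenericRat m 1 E D →
      {t : ℂ | IsRootOfUnity t ∧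
        ¬ NoAtypicalHodge (algebraMap (Algebra.adjoin ℤ (Γ : Set ℂ)) ℂ) K m
          (image (evalAt K t) P A B U)}.Finite) ∧
    (∀ (l : ℕ) (φ : Fin l → Polynomial ℤ) (g : Polynomial ℤ), IrreducibleComposites φ g →
      (∀ α ∈ D, Wandering φ α) → GenericRat m 1 E D →
      {t : ℂ | InBackwardOrbit φ g t ∧
        ¬ NoAtypicalHodge (algebraMap (Algebra.adjoin ℤ (Γ : Set ℂ)) ℂ) K m
          (image (evalAt K t) P A B U)}.Finite) := by
  classical
  have hDK : ∀ α ∈ D.image (fun a : ℚ => (a : ℂ)), IsAlgebraic K α := by
    intro α hα
    obtain ⟨a, -, rfl⟩ := Finset.mem_image.1 hα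
    exact (isAlgebraic_algebraMap (R := ℚ) (A := ℂ) a).tower_top K
  have key : ∀ T : Set ℂ, (∀ α ∈ D, Pool.Agent.Run7.h866.ZP.Hits K T {((α : ℚ) : ℂ)}) →
      GenericRat m 1 E D →
      {t : ℂ | t ∈ T ∧ ¬ NoAtypicalHodge (algebraMap (Algebra.adjoin ℤ (Γ : Set ℂ)) ℂ) K m
        (image (evalAt K t) P A B U)}.Finite := by
    intro T hT hgen
    refine Pool.Agent.Run7.h866.ZP.familyHodge K κ₀ κ n k N m P A B U E hE
      (D.image fun a : ℚ => (a : ℂ)) hDK Γ hΓ T fun r cls d L hd hr => ?_
    obtain ⟨I, hI, hc, hno⟩ := hgen r cls d L hd hr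
    obtain ⟨a, ha⟩ := Finset.card_pos.1 (show 0 < I.card by omega)
    refine ⟨{(a : ℂ)}, ?_, hT a (hI ha), ?_⟩
    · intro z hz
      rw [Finset.mem_singleton.1 hz]
      exact Finset.mem_image_of_mem _ (hI ha)
    · intro z hz
      rw [Finset.mem_singleton.1 hz]
      exact hno a ha
  refine ⟨fun h0 habs hgen => ?_, fun h0 hgen => ?_, fun l φ g hφ hα hgen => ?_⟩
  · refine Pool.Agent.Run7.h866.ZP.familyHodge K κ₀ κ n k N m P A B U E hE
      (D.image fun a : ℚ => (a : ℂ)) hDK Γ hΓ {t | IsRadical t} fun r cls d L hd hr => ?_
    obtain ⟨I, hI, hc, hno⟩ := hgen r cls d L hd hr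
    refine ⟨I.image fun a : ℚ => (a : ℂ), Finset.image_subset_image hI,
      Pool.Agent.Run7.h866.ZP.hits_radical I (fun α hα => h0 α (hI hα))
        (fun α hα β hβ => habs α (hI hα) β (hI hβ)) hc, ?_⟩
    intro α hα
    obtain ⟨a, ha, rfl⟩ := Finset.mem_image.1 hα
    exact hno a ha
  · exact key {t | IsRootOfUnity t}
      (fun α hα => Pool.Agent.Run7.h866.ZP.hits_unity α (h0 α hα).1 (h0 α hα).2) hgen
  · exact key {t | InBackwardOrbit φ g t}
      (fun α hα' => Pool.Agent.Run7.h866.ZP.hits_backward φ g hφ α (hα α hα')) hgen

end Pool.Agent.Results.MP_eeb1a4_ag.RadicalAndBackwardMembers
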