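import Pool.Agent.Run7.h972.AW.Base
import Pool.Agent.Results.MP_eeb1a4_ag.RandomOrbits

/-!
# MP_eeb1a4_ag: Zilber-Pink for mixed variations of Hodge structure along random orbits of affine maps in
families with one or several parameters

The starting result `RandomOrbits` (whose definitions are used) is about the sums `V_t` of the variations
`R¹π_{i*} ℤ` of elliptic curves `E_i : Y² = X³ + A_i X + B_i` and of Kummer variations given by invertible
functions `U_j` over a base `S_t ⊂ ℂ^N`; everything depends on parameters `t ∈ ℤ^r`. A `Family` is a family of
this kind which satisfies a condition on the tropicalizations along some hypersurfaces `f_l = 0` in the space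
of the parameters; `Typical` says that the member at `t` has no atypical Hodge subvarieties: every
irreducible constructible subset `W` of the intersection of the image of the period map with a Hodge
subvariety `Z × C` satisfies `dim W + (n + k - m) ≤ dim (Z × C)`. The starting result considers the
parameters in one random orbit of a vector `v ≠ 0` under matrices of determinant one which generate
`SL_r(ℤ/q)`, `r ≥ 2`, and for each family a set of times of density zero. Here the maps are affine and need
not be invertible, families with one parameter are allowed, and there is ONE set of times for all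
families and all starting vectors.

Let `x ↦ A_j x + b_j`, `j ≤ m`, be a finite family of affine maps of `ℤ^r` (`AffineWalk`) which for all `q`
prime to some `M` are permutations of `(ℤ/q)^r` and generate a transitive group. The determinants of the
`A_j` are arbitrary nonzero integers. For instance, for `r = 1`: any finite family of maps
`x ↦ a_j x + b_j` of `ℤ`, `a_j ≠ 0`, two of which do not commute (`Run7.h972.AW.line_walk`), such as
`x ↦ 10 x + d` for the `d` in a set of at least two digits (the orbit of `0` are the initial segments of
a random decimal number with digits in this set) or `x ↦ 2 x + 1`, `x ↦ 3 x`; in general, `x ↦ A x + d`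
(digits in a matrix base), or random walks on `ℤ^r` (`A_j = 1`), of which polynomially many vectors are
visited. For independent and uniformly distributed indices `w 0, w 1, …` let `c_0 = v`,
`c_(j+1) = A_(w j) c_j + b_(w j)` (`aorb`).

**Theorem.** With probability one there is ONE set `E` of times of density zero such that for ALL starting
vectors `v`, ALL families with the condition (all `n`, `k`, `N`, `m`, all bases, elliptic curves and
functions, all `Γ`) the member `V_t` at `t = c_j` has no atypical Hodge subvarieties in the above sense for
all but finitely many `j` outside `E`. For example (`r = 1`), for families over the line: for almost every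
sequence of digits at 100% of its initial segments.

Proof. The vectors `t` such that for no prime `p > D` the value `f_l(t)` is divisible by `p` and `G_l(t)` is
not, form a pronull set (starting library), and by the ergodic theorem for walks on finite groups
(`Pool.Agent.N24.RW`), applied to the group of affine permutations of `(ℤ/q)^r`, the random orbits are in
pronull sets only at times of density zero (`Run7.h972.AW`). There are countably many conditions
`(f, G, D)`.
-/

set_option autoImplicit false

namespace Pool.Agent.Results.MP_eeb1a4_ag.RandomAffineOrbits

open MvPolynomial MeasureTheory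
open Pool.Agent.N24.RW (words crit clo)
open Pool.Agent.N676.OR (DensityZero)
open Pool.Agent.Results.MP_eeb1a4_ag.RandomOrbits (Family exceptional rich_iff)
open Run7.h972.AW

theorem result (r : ℕ) (W : AffineWalk (Fin r)) :
    ∀ᵐ w ∂(words W.m), ∃ E : Set ℕ, DensityZero E ∧ ∀ (v : Fin r → ℤ) (𝓕 : Family r)
      (Γ : Finset ℂ) (K : Subfield ℂ) [Countable K],
      (∀ γ ∈ Γ, IsAlgebraic ℚ γ) → (∀ γ ∈ Γ, γ ∈ K) →
        {j : ℕ | j ∉ E ∧ ¬ 𝓕.Typical Γ K (aorb W v w j)}.Finite := by
  have hc := Pool.Agent.N618.RO.countable_mv r
  filter_upwards [one_set W (κ := MvPolynomial (Fin r) ℤ × MvPolynomial (Fin r) ℤ × ℕ)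
    (fun x => {c | (x.1 ≠ 0 ∧ Pool.Agent.N603.TH.Divergent x.1 x.2.1) ∧
      c ∈ Pool.Agent.N618.RO.Bd x.1 x.2.1 x.2.2})
    (fun x => proNull_imp (fun h => Pool.Agent.N618.RO.bd_null crit clo h.1 h.2 x.2.2))] with w hw
  obtain ⟨E, hE, h1⟩ := hw
  refine ⟨E, hE, fun v 𝓕 Γ K _ hΓ hΓK => ?_⟩
  obtain ⟨D, hD⟩ := exceptional 𝓕 Γ K hΓ hΓK
  refine (Set.finite_iUnion fun l => h1 v (𝓕.f l, 𝓕.G l, D)).subset ?_
  rintro j ⟨hj, hj'⟩
  obtain ⟨l, hl⟩ := Set.mem_iUnion.1 (hD (show aorb W v w j ∈ {t | ¬ 𝓕.Typical Γ K t} from hj'))
  exact Set.mem_iUnion.2 ⟨l, hj, rich_iff (𝓕.rich l), hl⟩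

end Pool.Agent.Results.MP_eeb1a4_ag.RandomAffineOrbits
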