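import Pool.Agent.Run7.h866.ZP.Vhs
import Pool.Agent.Run7.h866.ZP.Rec
import Pool.Agent.Run7.h866.ZP.Sum
import Pool.Agent.Run7.h866.ZP.Seq

/-!
# MP_eeb1a4_ag: Zilber-Pink for the variations of mixed Hodge structure of all but finitely many members,
with parameters in linear recurrence sequences, sequences of the type of the factorials and sums of
units, of arbitrary one-parameter families of tuples of elliptic curves and invertible functions

**The variations.** Let `K ⊂ ℂ` be a countable field, let `P` be a finite system of polynomials in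
`s_1, …, s_N` with coefficients in `K[t]`, and let `A_i`, `B_i` (`i ≤ n`) and `U_j` (`j ≤ k`) be
polynomials of this kind. For `t ∈ ℂ` let `S_t ⊂ ℂ^N` be the set of the points `s` with `P(s) = 0`,
`4 A_i(s)³ + 27 B_i(s)² ≠ 0` for all `i` and `U_j(s) ≠ 0` for all `j` (`OnS`; the coefficients are
evaluated at `t`). Over `S_t` there are the elliptic curves

  `E_i : y² = x³ + A_i x + B_i`

and the invertible functions `U_j`, which give extensions of `ℤ` by `ℤ(1)` (Kummer variations); the
sum `V_t` of the variations `R¹π_{i*} ℤ` and of these extensions is an admissible graded-polarizable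
variation of mixed Hodge structure (on the smooth part of `S_t`, if `S_t` is not smooth). By the
elliptic modular function `jj = j = E₄³ / Δ` and the exponential function the quotient `Γ \ D` of the
period domain (`D` is the product of `n` upper half planes and `ℂ^k`, `Γ = SL_2(ℤ)^n × ℤ^k`) is
identified with `Y(1)^n × G_m^k = ℂ^n × (ℂ^×)^k`, and the period map `Φ` is given by the
`j`-invariants `6912 A_i³ / (4 A_i³ + 27 B_i²)` and the functions `U_j` (`period`). The Hodge
subvarieties `Γ' \ D'` of `Γ \ D` are the products `Z × C` of a special subvariety `Z` of `Y(1)^n`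
(`SpecialVariety`) and a torsion coset `C`. Here `Z.locus` is the set of the points `x` with `x_i` a
constant for the constant coordinates, and `x_i = j (g_i z_c)` for the coordinates of class `c`,
where `z_1, …, z_r` are free in the upper half plane and `g_i` is a fixed integral matrix of positive
determinant. More generally the constants can be special or integral over the ring `ℤ[Γ]` generated
by a given finite set `Γ` of numbers algebraic over `K`, and `C` can be a coset of an algebraic
subgroup by a point whose coordinates are units over `ℤ[Γ]`.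

**Tropicalization.** Let `E` be a finite system of polynomials in `u_1, …, u_{n+k}`, `s_1, …, s_N` with
coefficients in `K[t]`, which vanish at all points `(Φ(s), s)`, `s ∈ S_t`. For instance `E` consists
of `P`, of the polynomials `(4 A_i³ + 27 B_i²) u_i - 6912 A_i³` and of `u_{n+j} - U_j`, but one can add
other polynomials with this property. For `α ∈ ℂ` the set `Trop α E` consists of the points `w` of
`(ℚ ∪ {∞})^(n+k+N)` such that for every polynomial of the system the minimum of the numbers
`ord_α (coefficient) + β · w` (over the exponents `β` of its monomials) is attained at two different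
exponents or is infinite.

**Types of special subvarieties.** The product `Z × C` has a type `(cls, d, L)`: the partition `cls` of
the coordinates of `Y(1)^n` which are not constant on `Z` into `r = dim Z` classes, the determinants
`d_i > 0` of the matrices which define `Z`, and the linear subspace `L` of `ℚ^k`, of dimension `dim C`,
which is orthogonal to the characters constant on `C`. A point `w` is compatible with the type
(`Compatible`) if `w_i ≥ 0` for the constant coordinates, for coordinates `i`, `j` in the same class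
either `w_i ≥ 0` and `w_j ≥ 0`, or `w_i < 0`, `w_j < 0` and `d_i d_j w_i w_j` is the square of a rational
number, and the torus coordinates of `w` are a vector in `L`.

**Parameters.**
1. The terms of `a(ν) = b + c_1 λ_1^ν + … + c_q λ_q^ν`, `ν ∈ ℤ`, with algebraic numbers `b`, `c_i ≠ 0`,
   `λ_i ≠ 0`, where no `λ_i` and no quotient `λ_i / λ_j`, `i ≠ j`, is a root of unity
   (`Nondegenerate`).
2. The sums `t = b + c_1 u_1 + … + c_q u_q`, `u_i ∈ G` (`IsSum`), where `G` is a finitely generated
   multiplicative group of algebraic numbers.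
3. Sequences `t_0, t_1, t_2, …` of rational numbers with `|t_ν| → ∞`, such that for every `α ∈ D` and
   every prime number `p` the numerators of the numbers `t_ν - α` are divisible by bounded powers of
   `p` only, for `ν` sufficiently large; for instance `t_ν = ν!`, `0 ∉ D`.

**Theorem.** Let `m` be an integer, the dimension of `Φ(S_t)`, and `D` a finite set of algebraic numbers,
such that for every type of dimension `r + dim L < n + k - m` there is an element `α` of `D` such that
`Trop α E` contains no compatible point (`Generic`). Then every irreducible constructible subset `W` of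
`Φ(S_t) ∩ Γ' \ D'` satisfies `dim W + (n + k - m) ≤ dim Γ' \ D'` (`NoAtypicalHodge`), and the same bound
holds for the transcendence degrees over `K` of the points of `Φ(S_t) ∩ Γ' \ D'`, for `t = a(ν)` and all
but finitely many `ν` (if `q ≥ 2`, or `q = 1` and `b ∉ D`), for all but finitely many of the sums (if no
`α ∈ D` is a partial sum `b + ∑_{i ∈ J} c_i u_i` with a proper subset `J` of the indices) and for
`t = t_ν` and all but finitely many `ν` (if the elements of `D` are rational).

This says that `codim Φ(Z) ≥ codim Γ' \ D'`, the codimension of `Φ(Z)` being taken in `Φ(S_t)`, for all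
special subvarieties `Z` of `S_t` for `V_t` (`Z` a component of `Φ⁻¹(Γ' \ D')`), if `dim Φ(S_t) = m`:
the atypical Hodge locus of `V_t` is empty. For `Z = S_t` one gets that `Φ(S_t)` is contained in no
proper Hodge subvariety if `n + k > m`.

One degenerate parameter is sufficient for every type. The starting file `TropicalEllipticFamilies`
treats families over the points of an elliptic curve over a number field; for variations of pure
Hodge structure and the parameters in a finitely generated field, ring or group of units see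
`MP_0704bf_ag.TropicalWeierstrassFamilies` (three, two and one degenerate parameters). The arithmetic is
that of `MP_d83ecd_ag.LinearRecurrences`, `MP_130685_nt.SumsOfUnits` and
`MP_130685_nt.FactorialSequences` (this run).
-/

set_option autoImplicit false

namespace Pool.Agent.Results.MP_eeb1a4_ag.RecurrencesAndSumsOfUnits

open MvPolynomial Pool.Agent.R424.TG
open Pool.Agent.Y152.RP.FamM (evalAt)

/-- `b`, the `c i` and the `lam i` are algebraic, the `c i` and the `lam i` are not zero, and no `lam i`
and no quotient of two different ones is a root of unity. -/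
structure Nondegenerate {q : ℕ} (b : ℂ) (c lam : Fin q → ℂ) : Prop where
  alg_b : IsAlgebraic ℚ b
  alg_c : ∀ i, IsAlgebraic ℚ (c i)
  alg_lam : ∀ i, IsAlgebraic ℚ (lam i)
  c_ne : ∀ i, c i ≠ 0
  lam_ne : ∀ i, lam i ≠ 0
  not_root : ∀ i, ∀ s : ℕ, 0 < s → lam i ^ s ≠ 1
  not_quot : ∀ i j, i ≠ j → ∀ s : ℕ, 0 < s → lam i ^ s ≠ lam j ^ s

/-- The term `a(ν) = b + ∑ i, c i * lam i ^ ν` of the sequence. -/
noncomputable def term {q : ℕ} (b : ℂ) (c lam : Fin q → ℂ) (ν : ℤ) : ℂ :=
  b + ∑ i, c i * lam i ^ ν

/-- `t = b + c_1 u_1 + … + c_q u_q` with elements `u_i` of the multiplicative group `G`. -/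
def IsSum {q : ℕ} (b : ℂ) (c : Fin q → ℂ) (G : Subgroup ℂˣ) (t : ℂ) : Prop :=
  ∃ u : Fin q → ℂˣ, (∀ i, u i ∈ G) ∧ t = b + ∑ i, c i * (u i : ℂ)

/-- `α = b + ∑_{i ∈ J} c_i u_i` with elements `u_i` of `G` and a proper subset `J` of the set of
indices. -/
def IsPartialSum {q : ℕ} (b : ℂ) (c : Fin q → ℂ) (G : Subgroup ℂˣ) (α : ℂ) : Prop :=
  ∃ J : Finset (Fin q), J ≠ Finset.univ ∧ ∃ u : Fin q → ℂˣ, (∀ i, u i ∈ G) ∧
    α = b + ∑ i ∈ J, c i * (u i : ℂ)

/-- Zilber-Pink for the variations of mixed Hodge structure of the members, with parameters in linear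
recurrence sequences, sums of units and sequences of the type of the factorials, of arbitrary
one-parameter families of `n`-tuples of elliptic curves and `k`-tuples of invertible functions. -/
theorem result (K : Subfield ℂ) [Countable K] (κ₀ κ : Type) [Finite κ] (n k N m : ℕ)
    (P : κ₀ → MvPolynomial (Fin N) (Polynomial K))
    (A B : Fin n → MvPolynomial (Fin N) (Polynomial K))
    (U : Fin k → MvPolynomial (Fin N) (Polynomial K))
    (E : κ → MvPolynomial ((Fin n ⊕ Fin k) ⊕ Fin N) (Polynomial K))
    (hE : ∀ (t : ℂ) (s : Fin N → ℂ), OnS (evalAt K t) P A B U s → ∀ q,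
      eval₂ (evalAt K t) (Sum.elim (period (evalAt K t) A B U s) s) (E q) = 0)
    (D : Finset ℂ) (hD : ∀ α ∈ D, IsAlgebraic ℚ α) (hgen : Generic m 1 E D)
    (Γ : Finset ℂ) (hΓ : ∀ γ ∈ Γ, IsAlgebraic K γ) :
    (∀ (q : ℕ) (b : ℂ) (c lam : Fin q → ℂ), Nondegenerate b c lam → (2 ≤ q ∨ (q = 1 ∧ b ∉ D)) →
      {ν : ℤ | ¬ NoAtypicalHodge (algebraMap (Algebra.adjoin ℤ (Γ : Set ℂ)) ℂ) K m
        (image (evalAt K (term b c lam ν)) P A B U)}.Finite) ∧
    (∀ (q : ℕ) (b : ℂ) (c : Fin q → ℂ) (G : Finset ℂˣ), 0 < q → IsAlgebraic ℚ b →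
      (∀ i, IsAlgebraic ℚ (c i)) → (∀ u ∈ G, IsAlgebraic ℚ (u : ℂ)) →
      (∀ α ∈ D, ¬ IsPartialSum b c (Subgroup.closure (G : Set ℂˣ)) α) →
      {t : ℂ | IsSum b c (Subgroup.closure (G : Set ℂˣ)) t ∧
        ¬ NoAtypicalHodge (algebraMap (Algebra.adjoin ℤ (Γ : Set ℂ)) ℂ) K m
          (image (evalAt K t) P A B U)}.Finite) ∧
    (∀ (D' : Finset ℚ) (t : ℕ → ℚ), (∀ α ∈ D, ∃ α' ∈ D', ((α' : ℚ) : ℂ) = α) →
      (∀ C : ℚ, {ν : ℕ | |t ν| ≤ C}.Finite) →
      (∀ α ∈ D', ∀ p : ℕ, p.Prime → ∃ e : ℕ, {ν : ℕ | (p : ℤ) ^ e ∣ (t ν - α).num}.Finite) →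
      {ν : ℕ | ¬ NoAtypicalHodge (algebraMap (Algebra.adjoin ℤ (Γ : Set ℂ)) ℂ) K m
        (image (evalAt K ((t ν : ℚ) : ℂ)) P A B U)}.Finite) := by
  classical
  have key : ∀ T : Set ℂ, (∀ α ∈ D, Pool.Agent.Run7.h866.ZP.Hits K T {α}) →
      {t : ℂ | t ∈ T ∧ ¬ NoAtypicalHodge (algebraMap (Algebra.adjoin ℤ (Γ : Set ℂ)) ℂ) K m
        (image (evalAt K t) P A B U)}.Finite := by
    intro T hT
    refine Pool.Agent.Run7.h866.ZP.familyHodge K κ₀ κ n k N m P A B U E hE D
      (fun α hα => (hD α hα).tower_top K) Γ hΓ T fun r cls d L hd hr => ?_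
    obtain ⟨I, hI, hc, hno⟩ := hgen r cls d L hd hr
    obtain ⟨a, ha⟩ := Finset.card_pos.1 (show 0 < I.card by omega)
    refine ⟨{a}, by simpa using hI ha, hT a (hI ha), ?_⟩
    intro z hz
    rw [Finset.mem_singleton.1 hz]
    exact hno a ha
  refine ⟨fun q b c lam h hq => ?_, fun q b c G hq0 hb hc hG hα => ?_, fun D' t hDD hinf hp => ?_⟩
  · have hc : ∀ i, IsAlgebraic ℚ (c i) ∧ c i ≠ 0 := fun i => ⟨h.alg_c i, h.c_ne i⟩
    have hl : ∀ i, IsAlgebraic ℚ (lam i) ∧ lam i ≠ 0 := fun i => ⟨h.alg_lam i, h.lam_ne i⟩
    have hfin := key (Set.range (Pool.Agent.Run7.h866.ZP.term b c lam)) fun α hα =>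
      Pool.Agent.Run7.h866.ZP.hits_term b c lam h.alg_b hc hl h.not_root h.not_quot α (hD α hα) (by
        rcases hq with h2 | ⟨h1, hb⟩
        · exact Or.inl h2
        · refine Or.inr ⟨by omega, ?_⟩
          rintro rfl
          exact hb hα)
    refine (hfin.biUnion (t := fun t => {ν : ℤ | Pool.Agent.Run7.h866.ZP.term b c lam ν = t})
      fun t _ => Pool.Agent.Run7.h866.ZP.finite_fibre b c lam h.alg_b hc hl h.not_root h.not_quot
        (by rcases hq with h2 | ⟨h1, -⟩ <;> omega) t).subset ?_
    intro ν hν
    exact Set.mem_biUnion (x := Pool.Agent.Run7.h866.ZP.term b c lam ν) ⟨⟨ν, rfl⟩, hν⟩ rfl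
  · refine key {t | IsSum b c (Subgroup.closure (G : Set ℂˣ)) t} fun α hαD => ?_
    refine Pool.Agent.Run7.h866.ZP.hits_sums hq0 b c hb hc G hG α (hD α hαD) ?_
    intro J hJ u hu h
    exact hα α hαD ⟨J, hJ, u, hu, h⟩
  · have hfin := key (Set.range fun ν => ((t ν : ℚ) : ℂ)) fun α hα => by
      obtain ⟨a, ha, rfl⟩ := hDD α hα
      exact Pool.Agent.Run7.h866.ZP.hits_seq t a (hp a ha) hinf
    refine (hfin.preimage' (f := fun ν => ((t ν : ℚ) : ℂ)) fun z _ => ?_).subset fun ν hν =>
      ⟨⟨ν, rfl⟩, hν⟩
    by_cases hz : ∃ ν₀, ((t ν₀ : ℚ) : ℂ) = z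
    · obtain ⟨ν₀, rfl⟩ := hz
      refine (hinf |t ν₀|).subset ?_
      intro ν hν
      have h1 : ((t ν : ℚ) : ℂ) = ((t ν₀ : ℚ) : ℂ) := hν
      have h2 : t ν = t ν₀ := by exact_mod_cast h1
      show |t ν| ≤ |t ν₀|
      rw [h2]
    · refine Set.Finite.subset Set.finite_empty ?_
      intro ν hν
      exact absurd ⟨ν, hν⟩ hz

end Pool.Agent.Results.MP_eeb1a4_ag.RecurrencesAndSumsOfUnits
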